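import Pool.Agent.H51.RG.Four

set_option autoImplicit false

namespace Pool.Agent.Results.MP_994f6a_co.FewMatchingCuts

/-- Let `G` be a finite loopless cubic multigraph in which no vertex set has exactly one boundary
edge, let `n` be the number of its vertices and `k ≥ 5`. Suppose that `n < 70`, or that every vertex
set `S` whose boundary has an odd number of edges, no two of them with a common end, has `3` or `k`
boundary edges, or more than `max (k, n / (2 k))` boundary edges. Then `G` has a nowhere-zero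
`Z2^3`-flow which uses at most five Fano lines, and at most four if `n < 2 k (2 k - 3)`; the last
number is at least `70`, so for `n < 70` there is always a flow with at most four lines. -/
theorem result (V E : Type) [Fintype V] [DecidableEq V] [Fintype E] [DecidableEq E] (h t : E → V)
    (hne : ∀ e, h e ≠ t e)
    (hdeg : ∀ v, (Finset.univ.filter (fun e => h e = v)).card
              + (Finset.univ.filter (fun e => t e = v)).card = 3)
    (hbr : ∀ S : Finset V,
        (Finset.univ.filter (fun e => (h e ∈ S ∧ t e ∉ S) ∨ (h e ∉ S ∧ t e ∈ S))).card ≠ 1)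
    (k : ℕ) (hk : 5 ≤ k)
    (hcut : Fintype.card V < 70 ∨ ∀ S : Finset V,
      Odd (Finset.univ.filter (fun e => (h e ∈ S ∧ t e ∉ S) ∨ (h e ∉ S ∧ t e ∈ S))).card →
      (∀ v, (Finset.univ.filter (fun e => ((h e ∈ S ∧ t e ∉ S) ∨ (h e ∉ S ∧ t e ∈ S)) ∧
        (h e = v ∨ t e = v))).card ≤ 1) →
      (Finset.univ.filter (fun e => (h e ∈ S ∧ t e ∉ S) ∨ (h e ∉ S ∧ t e ∈ S))).card = 3 ∨
      (Finset.univ.filter (fun e => (h e ∈ S ∧ t e ∉ S) ∨ (h e ∉ S ∧ t e ∈ S))).card = k ∨
      (k < (Finset.univ.filter (fun e => (h e ∈ S ∧ t e ∉ S) ∨ (h e ∉ S ∧ t e ∈ S))).card ∧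
        Fintype.card V < 2 * k *
          (Finset.univ.filter (fun e => (h e ∈ S ∧ t e ∉ S) ∨ (h e ∉ S ∧ t e ∈ S))).card)) :
    ∃ f : E → (Fin 3 → ZMod 2),
        (∀ e, f e ≠ 0) ∧
        (∀ v, (∑ e ∈ Finset.univ.filter (fun e => h e = v), f e)
              + (∑ e ∈ Finset.univ.filter (fun e => t e = v), f e) = 0) ∧
        (Finset.univ.image
          (fun v => (Finset.univ.filter (fun e => h e = v ∨ t e = v)).image f)).card ≤ 5 ∧
        (Fintype.card V < 2 * k * (2 * k - 3) → (Finset.univ.image
          (fun v => (Finset.univ.filter (fun e => h e = v ∨ t e = v)).image f)).card ≤ 4) :=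
  Pool.Agent.H51.RG.fin4 V E h t hne hdeg hbr k hk hcut

end Pool.Agent.Results.MP_994f6a_co.FewMatchingCuts
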