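import Pool.Agent.H41.RG.JOIN

set_option autoImplicit false

namespace Pool.Agent.Results.MP_994f6a_co.JoinedCircuits

/-- Let `G` be a finite loopless cubic multigraph in which no vertex set has exactly one boundary
edge, `M` a perfect matching of `G` and `k ≥ 3` such that every vertex set of odd size whose
boundary is contained in `M` has at least `k` boundary edges. Suppose that

(a) for some `J ⊆ M` with fewer than `k` edges every vertex set of odd size is left by an edge
which is outside `M` or in `J` (all components of `(V, (E - M) ∪ J)` have an even number of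
vertices: the edges of `J` join the odd circuits of the 2-factor `E - M` up), or

(b) for some costs `c ≥ 0` on `M` of total less than `k` the boundary of every vertex set of odd
size which is contained in `M` and has more than `k` edges costs at least `1`.

Then `G` has a nowhere-zero `Z2^3`-flow which uses at most five Fano lines. -/
theorem result (V E : Type) [Fintype V] [DecidableEq V] [Fintype E] [DecidableEq E] (h t : E → V)
    (hne : ∀ e, h e ≠ t e)
    (hdeg : ∀ v, (Finset.univ.filter (fun e => h e = v)).card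
              + (Finset.univ.filter (fun e => t e = v)).card = 3)
    (hbr : ∀ S : Finset V,
        (Finset.univ.filter (fun e => (h e ∈ S ∧ t e ∉ S) ∨ (h e ∉ S ∧ t e ∈ S))).card ≠ 1)
    (M : Finset E) (hM : ∀ v, (M.filter (fun e => h e = v ∨ t e = v)).card = 1)
    (k : ℕ) (hk : 3 ≤ k)
    (hcut : ∀ S : Finset V, Odd S.card →
      Finset.univ.filter (fun e => (h e ∈ S ∧ t e ∉ S) ∨ (h e ∉ S ∧ t e ∈ S)) ⊆ M →
      k ≤ (Finset.univ.filter (fun e => (h e ∈ S ∧ t e ∉ S) ∨ (h e ∉ S ∧ t e ∈ S))).card)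
    (hab : (∃ J ⊆ M, J.card < k ∧ ∀ S : Finset V, Odd S.card →
        ∃ e, (e ∉ M ∨ e ∈ J) ∧ ((h e ∈ S ∧ t e ∉ S) ∨ (h e ∉ S ∧ t e ∈ S))) ∨
      (∃ c : E → ℚ, (∀ e ∈ M, 0 ≤ c e) ∧ ∑ e ∈ M, c e < k ∧ ∀ S : Finset V, Odd S.card →
        Finset.univ.filter (fun e => (h e ∈ S ∧ t e ∉ S) ∨ (h e ∉ S ∧ t e ∈ S)) ⊆ M →
        k < (Finset.univ.filter (fun e => (h e ∈ S ∧ t e ∉ S) ∨ (h e ∉ S ∧ t e ∈ S))).card →
        1 ≤ ∑ e ∈ Finset.univ.filter
          (fun e => (h e ∈ S ∧ t e ∉ S) ∨ (h e ∉ S ∧ t e ∈ S)), c e)) :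
    ∃ f : E → (Fin 3 → ZMod 2),
        (∀ e, f e ≠ 0) ∧
        (∀ v, (∑ e ∈ Finset.univ.filter (fun e => h e = v), f e)
              + (∑ e ∈ Finset.univ.filter (fun e => t e = v), f e) = 0) ∧
        (Finset.univ.image
          (fun v => (Finset.univ.filter (fun e => h e = v ∨ t e = v)).image f)).card ≤ 5 := by
  rcases hab with ⟨J, hJM, hJ, hJc⟩ | ⟨c, hc0, hcs, hc1⟩
  · exact Pool.Agent.H41.RG.flow_of_join V E h t hne hdeg hbr M hM k hk hcut J hJM hJ hJc
  · exact Pool.Agent.H41.RG.flow_of_cost V E h t hne hdeg hbr M hM k hk hcut c hc0 hcs hc1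

end Pool.Agent.Results.MP_994f6a_co.JoinedCircuits
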