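/-
helper43: bridgeless cubic graphs of oddness at most four have F_5-flows.
-/
import Pool.Agent.H43.F5.Main
import Pool.Agent.H43.F5.Flow
import Pool.Agent.H43.F5.Comp

set_option autoImplicit false

namespace Pool.Agent.Results.MP_994f6a_co.OddnessFour

open Pool.Agent.H43.F5

/-- Every finite loopless cubic multigraph with no cut of exactly one edge that has a 2-factor `F`
with at most four odd circuits has a nowhere-zero Z2^3-flow using at most five Fano lines. -/
theorem result (V E : Type) [Fintype V] [DecidableEq V] [Fintype E] [DecidableEq E] (h t : E → V)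
    (hne : ∀ e, h e ≠ t e)
    (hdeg : ∀ v, (Finset.univ.filter (fun e => h e = v)).card
              + (Finset.univ.filter (fun e => t e = v)).card = 3)
    (hbr : ∀ S : Finset V,
        (Finset.univ.filter (fun e => (h e ∈ S ∧ t e ∉ S) ∨ (h e ∉ S ∧ t e ∈ S))).card ≠ 1)
    (F : Finset E) (hF : ∀ v, (F.filter (fun e => h e = v ∨ t e = v)).card = 2)
    (hodd : {c : (SimpleGraph.fromRel
        (fun u v : V => ∃ e ∈ F, h e = u ∧ t e = v)).ConnectedComponent
          | Odd c.supp.ncard}.ncard ≤ 4) :
    ∃ f : E → (Fin 3 → ZMod 2),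
        (∀ e, f e ≠ 0) ∧
        (∀ v, (∑ e ∈ Finset.univ.filter (fun e => h e = v), f e)
              + (∑ e ∈ Finset.univ.filter (fun e => t e = v), f e) = 0) ∧
        (Finset.univ.image
          (fun v => (Finset.univ.filter (fun e => h e = v ∨ t e = v)).image f)).card ≤ 5 := by
  classical
  set G : Gr V E := ⟨Finset.univ, Finset.univ, h, t⟩ with hG
  have hok : Ok G := by
    refine ⟨fun e _ => Finset.mem_univ _, fun e _ => Finset.mem_univ _, fun e _ => hne e, ?_, ?_⟩
    · intro v _
      rw [← hdeg v]
      change (Finset.univ.filter (fun e => h e = v ∨ t e = v)).card = _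
      rw [Finset.filter_or, Finset.card_union_of_disjoint]
      rw [Finset.disjoint_left]
      intro e h1 h2
      simp only [Finset.mem_filter, Finset.mem_univ, true_and] at h1 h2
      exact hne e (h1.trans h2.symm)
    · intro X _
      have := hbr X
      have h2 : cut G G.es X =
          Finset.univ.filter (fun e => (h e ∈ X ∧ t e ∉ X) ∨ (h e ∉ X ∧ t e ∈ X)) := by
        ext e
        rw [mem_cut]
        simp only [Finset.mem_filter, Finset.mem_univ, true_and, Cr, hG]
        tauto
      rw [h2]
      exact this
  have hev : Ev G F := ⟨Finset.subset_univ _, fun v _ => Or.inr (hF v)⟩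
  have hT : TN G F 5 := by
    obtain ⟨R, h1, h2, h3⟩ := TN_of_comp h t F 4 hodd
    exact ⟨R, h1, h2.trans (by norm_num), h3⟩
  have hroot : Root G F := root_all G.vs.card G F rfl hok hev hT
  rcases isEmpty_or_nonempty E with hE | hE
  · -- no edges, hence no vertices
    have hV : IsEmpty V := by
      refine ⟨fun v => ?_⟩
      have := hF v
      rw [Finset.card_eq_two] at this
      obtain ⟨a, _⟩ := this
      exact hE.elim a
    refine ⟨fun e => (hE.elim e), fun e => hE.elim e, fun v => hV.elim v, ?_⟩
    refine Finset.card_image_le.trans ?_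
    rw [Finset.card_univ, Fintype.card_eq_zero]
    norm_num
  · obtain ⟨e⟩ := hE
    obtain ⟨N, hN, _, hg⟩ := hroot e (Finset.mem_univ e)
    exact flow_of_good h t F N hok hF hN hg

end Pool.Agent.Results.MP_994f6a_co.OddnessFour
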