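import Pool.Agent.H41.RG.THIRD

set_option autoImplicit false

namespace Pool.Agent.Results.MP_994f6a_co.ThirdMatching

/-- Let `G` be a finite loopless cubic multigraph in which no vertex set has exactly one boundary
edge, and let `M`, `P` be perfect matchings of `G`. Suppose that

(a) for some `k` the matchings `M` and `P` have fewer than `k` common edges, and every vertex set of
odd size whose boundary is contained in `M` or in `P` has at least `k` boundary edges (this is so
if `G` is cyclically `k`-edge-connected: both sides contain circuits of `E - M` or of `E - P`), or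

(b) for every vertex set of odd size whose boundary `C` satisfies `|C - M| + |C - P| ≤ 2`, this sum
is positive and `|M ∩ P| + 4 ≤ 2 |C|`.

Then `G` has a perfect matching `N` with `M ∩ P ∩ N` empty, and a nowhere-zero `Z2^3`-flow which uses
at most four Fano lines. -/
theorem result (V E : Type) [Fintype V] [DecidableEq V] [Fintype E] [DecidableEq E] (h t : E → V)
    (hne : ∀ e, h e ≠ t e)
    (hdeg : ∀ v, (Finset.univ.filter (fun e => h e = v)).card
              + (Finset.univ.filter (fun e => t e = v)).card = 3)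
    (hbr : ∀ S : Finset V,
        (Finset.univ.filter (fun e => (h e ∈ S ∧ t e ∉ S) ∨ (h e ∉ S ∧ t e ∈ S))).card ≠ 1)
    (M P : Finset E) (hM : ∀ v, (M.filter (fun e => h e = v ∨ t e = v)).card = 1)
    (hP : ∀ v, (P.filter (fun e => h e = v ∨ t e = v)).card = 1)
    (hab : (∃ k : ℕ, (M ∩ P).card < k ∧ ∀ S : Finset V, Odd S.card →
        (Finset.univ.filter (fun e => (h e ∈ S ∧ t e ∉ S) ∨ (h e ∉ S ∧ t e ∈ S)) ⊆ M ∨
          Finset.univ.filter (fun e => (h e ∈ S ∧ t e ∉ S) ∨ (h e ∉ S ∧ t e ∈ S)) ⊆ P) →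
        k ≤ (Finset.univ.filter (fun e => (h e ∈ S ∧ t e ∉ S) ∨ (h e ∉ S ∧ t e ∈ S))).card) ∨
      (∀ S : Finset V, Odd S.card →
        (Finset.univ.filter (fun e => (h e ∈ S ∧ t e ∉ S) ∨ (h e ∉ S ∧ t e ∈ S)) \ M).card +
          (Finset.univ.filter (fun e => (h e ∈ S ∧ t e ∉ S) ∨ (h e ∉ S ∧ t e ∈ S)) \ P).card
            ≤ 2 →
        0 < (Finset.univ.filter (fun e => (h e ∈ S ∧ t e ∉ S) ∨ (h e ∉ S ∧ t e ∈ S)) \ M).card +
          (Finset.univ.filter (fun e => (h e ∈ S ∧ t e ∉ S) ∨ (h e ∉ S ∧ t e ∈ S)) \ P).card ∧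
        (M ∩ P).card + 4 ≤
          2 * (Finset.univ.filter
            (fun e => (h e ∈ S ∧ t e ∉ S) ∨ (h e ∉ S ∧ t e ∈ S))).card)) :
    (∃ N : Finset E, (∀ v, (N.filter (fun e => h e = v ∨ t e = v)).card = 1) ∧
      ∀ e, ¬ (e ∈ M ∧ e ∈ P ∧ e ∈ N)) ∧
    ∃ f : E → (Fin 3 → ZMod 2),
        (∀ e, f e ≠ 0) ∧
        (∀ v, (∑ e ∈ Finset.univ.filter (fun e => h e = v), f e)
              + (∑ e ∈ Finset.univ.filter (fun e => t e = v), f e) = 0) ∧
        (Finset.univ.image
          (fun v => (Finset.univ.filter (fun e => h e = v ∨ t e = v)).image f)).card ≤ 4 :=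
  Pool.Agent.H41.RG.third_result V E h t hne hdeg hbr M P hM hP hab

end Pool.Agent.Results.MP_994f6a_co.ThirdMatching
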